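import Mathlib

set_option autoImplicit false
set_option linter.unusedSectionVars false

namespace Pool.Agent.Results.MP_d0ec72_al.PositiveWitt

open Polynomial

section Bracket

variable {k : Type} [Field k]

/-- The bracket `X ^ 2 * (u v' - u' v)`. -/
noncomputable def br (u v : k[X]) : k[X] := X ^ 2 * (u * derivative v - derivative u * v)

lemma br_add_left (x y z : k[X]) : br (x + y) z = br x z + br y z := by
  simp only [br, derivative_add]; ring

lemma br_add_right (x y z : k[X]) : br x (y + z) = br x y + br x z := by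
  simp only [br, derivative_add]; ring

lemma br_self (x : k[X]) : br x x = 0 := by
  simp only [br]; ring

lemma br_jacobi (x y z : k[X]) : br x (br y z) = br (br x y) z + br y (br x z) := by
  simp only [br, derivative_mul, derivative_sub, derivative_X_pow]
  simp only [Nat.cast_ofNat, map_ofNat, Nat.add_one_sub_one, pow_one]
  ring

lemma br_smul (t : k) (x y : k[X]) : br x (t • y) = t • br x y := by
  simp only [br, smul_eq_C_mul, derivative_C_mul]
  ring

end Bracket

/-- The positive part of the Witt algebra; `X ^ i` stands for the basis vector `e (i + 1)`. -/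
def WW (k : Type) [Field k] : Type := k[X]

variable {k : Type} [Field k]

noncomputable instance : AddCommGroup (WW k) := inferInstanceAs (AddCommGroup k[X])
noncomputable instance : Module k (WW k) := inferInstanceAs (Module k k[X])

noncomputable instance : Bracket (WW k) (WW k) := ⟨fun x y => br (k := k) x y⟩

noncomputable instance : LieRing (WW k) where
  add_lie x y z := br_add_left (k := k) x y z
  lie_add x y z := br_add_right (k := k) x y z
  lie_self x := br_self (k := k) x
  leibniz_lie x y z := br_jacobi (k := k) x y z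

noncomputable instance : LieAlgebra k (WW k) where
  lie_smul t x y := br_smul (k := k) t x y

/-- the degree of a bracket of two elements of different degrees -/
lemma natDegree_br [CharZero k] {u v : k[X]} (hu : u ≠ 0) (hv : v ≠ 0)
    (h : u.natDegree ≠ v.natDegree) :
    br u v ≠ 0 ∧ (br u v).natDegree = u.natDegree + v.natDegree + 1 := by
  set a := u.natDegree with ha
  set b := v.natDegree with hb
  have hc : (br u v).coeff (a + b + 1) = ((b : k) - (a : k)) * (u.leadingCoeff * v.leadingCoeff) := by
    have h1 : (u * derivative v).coeff (a + b - 1) = (b : k) * (u.leadingCoeff * v.leadingCoeff) := by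
      rcases Nat.eq_zero_or_pos b with hb0 | hb0
      · have : derivative v = 0 := by
          have : v.natDegree = 0 := by rw [← hb]; exact hb0
          exact derivative_of_natDegree_zero this
        rw [this, mul_zero, hb0]
        simp
      · have e1 : a + b - 1 = a + (b - 1) := by omega
        rw [e1, coeff_mul_add_eq_of_natDegree_le (le_of_eq ha.symm) (natDegree_derivative_le v)]
        rw [coeff_derivative, Nat.sub_add_cancel hb0]
        have : ((b - 1 : ℕ) : k) + 1 = (b : k) := by
          rw [← Nat.cast_add_one, Nat.sub_add_cancel hb0]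
        rw [this]
        simp only [leadingCoeff, ← ha, ← hb]
        ring
    have h2 : (derivative u * v).coeff (a + b - 1) = (a : k) * (u.leadingCoeff * v.leadingCoeff) := by
      rcases Nat.eq_zero_or_pos a with ha0 | ha0
      · have : derivative u = 0 := by
          have : u.natDegree = 0 := by rw [← ha]; exact ha0
          exact derivative_of_natDegree_zero this
        rw [this, zero_mul, ha0]
        simp
      · have e1 : a + b - 1 = (a - 1) + b := by omega
        rw [e1, coeff_mul_add_eq_of_natDegree_le (natDegree_derivative_le u) (le_of_eq hb.symm)]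
        rw [coeff_derivative, Nat.sub_add_cancel ha0]
        have : ((a - 1 : ℕ) : k) + 1 = (a : k) := by
          rw [← Nat.cast_add_one, Nat.sub_add_cancel ha0]
        rw [this]
        simp only [leadingCoeff, ← ha, ← hb]
        ring
    have h3 : a + b + 1 = (a + b - 1) + 2 := by omega
    rw [br, mul_comm, h3, coeff_mul_X_pow, coeff_sub, h1, h2]
    ring
  have hne : (br u v).coeff (a + b + 1) ≠ 0 := by
    rw [hc]
    refine mul_ne_zero ?_ (mul_ne_zero (leadingCoeff_ne_zero.mpr hu) (leadingCoeff_ne_zero.mpr hv))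
    rw [sub_ne_zero]
    intro h'
    exact h (Nat.cast_injective h').symm
  refine ⟨fun h0 => hne (by rw [h0, coeff_zero]), le_antisymm ?_ (le_natDegree_of_ne_zero hne)⟩
  rw [natDegree_le_iff_coeff_eq_zero]
  intro N hN
  have h3 : N = (N - 2) + 2 := by omega
  rw [br, mul_comm, h3, coeff_mul_X_pow, coeff_sub]
  have e1 : (u * derivative v).coeff (N - 2) = 0 := by
    rcases Nat.eq_zero_or_pos b with hb0 | hb0
    · have : derivative v = 0 := by
        have : v.natDegree = 0 := by rw [← hb]; exact hb0
        exact derivative_of_natDegree_zero this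
      rw [this, mul_zero, coeff_zero]
    · apply coeff_eq_zero_of_natDegree_lt
      refine lt_of_le_of_lt natDegree_mul_le ?_
      have := natDegree_derivative_le v
      omega
  have e2 : (derivative u * v).coeff (N - 2) = 0 := by
    rcases Nat.eq_zero_or_pos a with ha0 | ha0
    · have : derivative u = 0 := by
        have : u.natDegree = 0 := by rw [← ha]; exact ha0
        exact derivative_of_natDegree_zero this
      rw [this, zero_mul, coeff_zero]
    · apply coeff_eq_zero_of_natDegree_lt
      refine lt_of_le_of_lt natDegree_mul_le ?_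
      have := natDegree_derivative_le u
      omega
  rw [e1, e2, sub_zero]

/-- the leading term argument: a subspace closed under the bracket is generated by finitely many
elements -/
lemma fg_aux [CharZero k] (V : Submodule k k[X]) (hV : ∀ x ∈ V, ∀ y ∈ V, br x y ∈ V) :
    ∃ s : Set k[X], s.Finite ∧ s ⊆ V ∧ ∀ U : Submodule k k[X],
      (∀ x ∈ U, ∀ y ∈ U, br x y ∈ U) → s ⊆ U → V ≤ U := by
  classical
  by_cases hbot : V = ⊥
  · exact ⟨∅, Set.finite_empty, Set.empty_subset _, fun U _ _ => hbot ▸ bot_le⟩
  obtain ⟨x0, hx0, hx0ne⟩ := Submodule.exists_mem_ne_zero_of_ne_bot hbot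
  have hex : ∃ n, ∃ x ∈ V, x ≠ 0 ∧ x.natDegree = n := ⟨_, x0, hx0, hx0ne, rfl⟩
  obtain ⟨x, hx, hxne, hxa⟩ := Nat.find_spec hex
  have hmin : ∀ y ∈ V, y ≠ 0 → Nat.find hex ≤ y.natDegree :=
    fun y hy hy0 => Nat.find_min' hex ⟨y, hy, hy0, rfl⟩
  set a := Nat.find hex with ha
  -- minimal representatives
  have hrep : ∀ r : Fin (a + 1), ∃ y ∈ V, ∀ v ∈ V, v ≠ 0 → a < v.natDegree →
      v.natDegree % (a + 1) = r →
        (y ≠ 0 ∧ a < y.natDegree ∧ y.natDegree % (a + 1) = r ∧ y.natDegree ≤ v.natDegree) := by
    intro r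
    by_cases hr : ∃ n, ∃ v ∈ V, v ≠ 0 ∧ a < v.natDegree ∧ v.natDegree % (a + 1) = r ∧
        v.natDegree = n
    · obtain ⟨y, hy, hy0, hya, hyr, hyn⟩ := Nat.find_spec hr
      refine ⟨y, hy, fun v hv hv0 hva hvr => ⟨hy0, hya, hyr, ?_⟩⟩
      rw [hyn]
      exact Nat.find_min' hr ⟨v, hv, hv0, hva, hvr, rfl⟩
    · push Not at hr
      exact ⟨x, hx, fun v hv hv0 hva hvr => absurd rfl (hr _ v hv hv0 hva hvr)⟩
  choose y hyV hy using hrep
  refine ⟨insert x (Set.range y), (Set.finite_range y).insert x, ?_, ?_⟩
  · rintro z (rfl | ⟨r, rfl⟩)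
    · exact hx
    · exact hyV r
  intro U' hU' hsU'
  -- we may work inside `U ⊓ V`
  set U : Submodule k k[X] := U' ⊓ V with hUdef
  have hUbr : ∀ x ∈ U, ∀ y ∈ U, br x y ∈ U :=
    fun x hx y hy => ⟨hU' x hx.1 y hy.1, hV x hx.2 y hy.2⟩
  have hxU : x ∈ U := ⟨hsU' (Set.mem_insert _ _), hx⟩
  have hyU : ∀ r, y r ∈ U := fun r => ⟨hsU' (Set.mem_insert_of_mem _ ⟨r, rfl⟩), hyV r⟩
  -- every degree occurring in `V` occurs in `U`
  have hdeg : ∀ v ∈ V, v ≠ 0 → ∃ u ∈ U, u ≠ 0 ∧ u.natDegree = v.natDegree := by
    intro v hv hv0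
    rcases eq_or_lt_of_le (hmin v hv hv0) with h | h
    · exact ⟨x, hxU, hxne, by rw [hxa, h]⟩
    · have hlt : v.natDegree % (a + 1) < a + 1 := Nat.mod_lt _ (Nat.succ_pos _)
      obtain ⟨h0, h1, h2, h3⟩ := hy ⟨v.natDegree % (a + 1), hlt⟩ v hv hv0 h rfl
      set z := y ⟨v.natDegree % (a + 1), hlt⟩ with hz
      have hstep : ∀ q : ℕ, ∃ u ∈ U, u ≠ 0 ∧ u.natDegree = z.natDegree + q * (a + 1) := by
        intro q
        induction q with
        | zero => exact ⟨z, hyU _, h0, by simp⟩
        | succ q ih =>
          obtain ⟨u, hu, hu0, hud⟩ := ih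
          have hne : x.natDegree ≠ u.natDegree := by
            rw [hxa, hud]
            have : 0 ≤ q * (a + 1) := Nat.zero_le _
            omega
          obtain ⟨hb1, hb2⟩ := natDegree_br hxne hu0 hne
          refine ⟨br x u, hUbr x hxU u hu, hb1, ?_⟩
          rw [hb2, hxa, hud]
          ring
      have hmod : z.natDegree ≡ v.natDegree [MOD (a + 1)] := h2
      obtain ⟨q, hq⟩ := (Nat.modEq_iff_dvd' h3).mp hmod
      obtain ⟨u, hu, hu0, hud⟩ := hstep q
      refine ⟨u, hu, hu0, ?_⟩
      rw [hud, mul_comm q, ← hq]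
      omega
  -- conclusion by induction on the degree
  have hmain : ∀ n : ℕ, ∀ v ∈ V, v.degree < n → v ∈ U := by
    intro n
    induction n with
    | zero =>
      intro v _ hvd
      have : v = 0 := by
        rw [← degree_eq_bot]
        exact (Nat.WithBot.lt_zero_iff).mp (by simpa using hvd)
      rw [this]
      exact U.zero_mem
    | succ n ih =>
      intro v hv hvd
      by_cases hvn : v.degree < n
      · exact ih v hv hvn
      have hv0 : v ≠ 0 := by
        rintro rfl
        exact hvn (by rw [degree_zero]; exact WithBot.bot_lt_coe n)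
      have hnat : v.natDegree = n := by
        rw [degree_eq_natDegree hv0] at hvd hvn
        have h1 : v.natDegree < n + 1 := by exact_mod_cast hvd
        have h2 : ¬ v.natDegree < n := by exact_mod_cast hvn
        omega
      obtain ⟨u, hu, hu0, hud⟩ := hdeg v hv hv0
      have hlc : u.leadingCoeff ≠ 0 := leadingCoeff_ne_zero.mpr hu0
      set c := v.leadingCoeff / u.leadingCoeff with hc
      have hw : v - c • u ∈ U := by
        refine ih _ (V.sub_mem hv (V.smul_mem c hu.2)) ?_
        rw [degree_lt_iff_coeff_zero]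
        intro m hm
        rcases eq_or_lt_of_le hm with h | h
        · subst h
          rw [coeff_sub, coeff_smul, smul_eq_mul]
          have e1 : v.coeff n = v.leadingCoeff := by rw [leadingCoeff, hnat]
          have e2 : u.coeff n = u.leadingCoeff := by rw [leadingCoeff, hud, hnat]
          rw [e1, e2, hc, div_mul_cancel₀ _ hlc, sub_self]
        · rw [coeff_sub, coeff_smul, coeff_eq_zero_of_natDegree_lt (by omega),
            coeff_eq_zero_of_natDegree_lt (by omega), smul_zero, sub_zero]
      have : v = (v - c • u) + c • u := by ring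
      rw [this]
      exact U.add_mem hw (U.smul_mem c hu)
  intro v hv
  have : v.degree < (v.natDegree + 1 : ℕ) := lt_of_le_of_lt degree_le_natDegree (by exact_mod_cast Nat.lt_succ_self _)
  exact (hmain _ v hv this).1

/-- a subalgebra as a subspace of the polynomial ring -/
def toSub (K : LieSubalgebra k (WW k)) : Submodule k k[X] := K.toSubmodule

lemma toSub_br (K : LieSubalgebra k (WW k)) : ∀ x ∈ toSub K, ∀ y ∈ toSub K, br x y ∈ toSub K := by
  intro x hx y hy
  have key : ∀ x y : WW k, x ∈ K → y ∈ K → ⁅x, y⁆ ∈ K := fun x y hx hy => K.lie_mem hx hy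
  exact key x y hx hy

/-- every subalgebra is generated by a finite set -/
theorem fg [CharZero k] (H : LieSubalgebra k (WW k)) :
    ∃ s : Set (WW k), s.Finite ∧ LieSubalgebra.lieSpan k (WW k) s = H := by
  obtain ⟨s, hs, hsV, hU⟩ := fg_aux (k := k) (toSub H) (toSub_br H)
  refine ⟨s, hs, le_antisymm (LieSubalgebra.lieSpan_le.mpr hsV) ?_⟩
  have h2 : ∀ t : Set (WW k), t ⊆ (LieSubalgebra.lieSpan k (WW k) t : Set (WW k)) :=
    fun t => LieSubalgebra.subset_lieSpan
  exact hU (toSub (LieSubalgebra.lieSpan k (WW k) s)) (toSub_br _) (h2 s)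

/-- The ideal of the elements divisible by `X ^ n`. -/
noncomputable def II (k : Type) [Field k] (n : ℕ) : LieIdeal k (WW k) :=
  { ((Ideal.span {(X : k[X]) ^ n}).restrictScalars k : Submodule k k[X]) with
    lie_mem := by
      intro x m hm
      have key : ∀ u v : k[X], v ∈ Ideal.span {(X : k[X]) ^ n} →
          br u v ∈ Ideal.span {(X : k[X]) ^ n} := by
        intro u v hv
        rw [Ideal.mem_span_singleton] at hv ⊢
        obtain ⟨w, rfl⟩ := hv
        rcases n with _ | n
        · simp
        refine ⟨X * (u * ((n + 1 : ℕ) : k[X]) * w) + X ^ 2 * (u * derivative w - derivative u * w), ?_⟩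
        rw [br, derivative_mul, derivative_X_pow]
        simp only [Nat.add_one_sub_one]
        rw [map_natCast]
        ring
      exact key x m hm }

lemma mem_II {n : ℕ} {x : k[X]} : (show WW k from x) ∈ II k n ↔ (X : k[X]) ^ n ∣ x :=
  Ideal.mem_span_singleton

lemma lcs_le (n : ℕ) : LieModule.lowerCentralSeries k (WW k) (WW k) n ≤ II k n := by
  induction n with
  | zero =>
    intro x _
    exact mem_II.mpr (by rw [pow_zero]; exact one_dvd _)
  | succ n ih =>
    rw [← LieSubmodule.toSubmodule_le_toSubmodule, LieModule.lowerCentralSeries_succ,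
      LieSubmodule.lieIdeal_oper_eq_linear_span]
    have h : Submodule.span k {x | ∃ (a : (⊤ : LieIdeal k (WW k))) (b :
        LieModule.lowerCentralSeries k (WW k) (WW k) n), ⁅(a : WW k), (b : WW k)⁆ = x}
        ≤ (II k (n + 1)).toSubmodule := by
      rw [Submodule.span_le]
      rintro _ ⟨a, b, rfl⟩
      have hb : (b : WW k) ∈ II k n := ih b.2
      have key : ∀ u v : k[X], X ^ n ∣ v → X ^ (n + 1) ∣ br u v := by
        rintro u _ ⟨w, rfl⟩
        rcases n with _ | n
        · rw [br]
          exact Dvd.dvd.mul_right (pow_dvd_pow _ (by norm_num)) _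
        refine ⟨(u * ((n + 1 : ℕ) : k[X]) * w) + X * (u * derivative w - derivative u * w), ?_⟩
        rw [br, derivative_mul, derivative_X_pow]
        simp only [Nat.add_one_sub_one]
        rw [map_natCast]
        ring
      exact mem_II.mpr (key _ _ (mem_II.mp hb))
    exact h

theorem residually (x : WW k) (hx : x ≠ 0) :
    ∃ I : LieIdeal k (WW k), x ∉ I ∧ LieRing.IsNilpotent (WW k ⧸ I) := by
  have key : ∀ u : k[X], u ≠ 0 → ∃ n, ¬ (X : k[X]) ^ n ∣ u := by
    intro u hu
    refine ⟨u.natDegree + 1, fun h => ?_⟩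
    have := natDegree_le_of_dvd h hu
    rw [natDegree_X_pow] at this
    omega
  obtain ⟨n, hn⟩ := key x hx
  refine ⟨II k n, fun h => hn (mem_II.mp h), ?_⟩
  have h1 : LieModule.IsNilpotent (WW k) (WW k ⧸ II k n) :=
    (LieModule.isNilpotent_quotient_iff k (WW k) (WW k) (II k n)).mpr ⟨n, lcs_le n⟩
  obtain ⟨m, hm⟩ := (LieModule.isNilpotent_iff k (WW k) (WW k ⧸ II k n)).mp h1
  refine (LieModule.isNilpotent_iff k (WW k ⧸ II k n) (WW k ⧸ II k n)).mpr ⟨m, ?_⟩
  rw [← LieSubmodule.toSubmodule_inj, ← coe_lowerCentralSeries_ideal_quot_eq, hm]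
  simp

/-- Over every field `k` of characteristic zero there is an infinite-dimensional Lie algebra which
satisfies the maximal condition on subalgebras (and all of whose subalgebras are finitely generated)
and is residually nilpotent. -/
theorem result (k : Type) [Field k] [CharZero k] :
    ∃ (L : Type) (_ : LieRing L) (_ : LieAlgebra k L),
      ¬ FiniteDimensional k L ∧
      (∀ H : LieSubalgebra k L, ∃ s : Set L, s.Finite ∧ LieSubalgebra.lieSpan k L s = H) ∧
      (∀ f : ℕ → LieSubalgebra k L, (∀ n, f n ≤ f (n + 1)) → ∃ n, ∀ m, n ≤ m → f m = f n) ∧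
      (∀ x : L, x ≠ 0 → ∃ I : LieIdeal k L, x ∉ I ∧ LieRing.IsNilpotent (L ⧸ I)) := by
  refine ⟨WW k, inferInstance, inferInstance, ?_, fg, ?_, residually⟩
  · intro h
    exact Polynomial.not_finite (R := k) h
  · intro f hf
    have hmono : Monotone f := monotone_nat_of_le_succ hf
    let H : LieSubalgebra k (WW k) :=
      { carrier := {x | ∃ n, x ∈ f n}
        add_mem' := by
          rintro x y ⟨n, hn⟩ ⟨m, hm⟩
          exact ⟨max n m, (f _).add_mem (hmono (le_max_left _ _) hn)
            (hmono (le_max_right _ _) hm)⟩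
        zero_mem' := ⟨0, (f 0).zero_mem⟩
        smul_mem' := by
          rintro c x ⟨n, hn⟩
          exact ⟨n, (f n).smul_mem c hn⟩
        lie_mem' := by
          rintro x y ⟨n, hn⟩ ⟨m, hm⟩
          exact ⟨max n m, (f _).lie_mem (hmono (le_max_left _ _) hn)
            (hmono (le_max_right _ _) hm)⟩ }
    obtain ⟨s, hs, hsH⟩ := fg H
    have hsub : ∀ x ∈ s, ∃ n, x ∈ f n := by
      intro x hx
      have h1 : x ∈ LieSubalgebra.lieSpan k (WW k) s := LieSubalgebra.subset_lieSpan hx
      rw [hsH] at h1
      exact h1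
    have hbound : ∃ n, s ⊆ f n := by
      clear hsH
      induction s, hs using Set.Finite.induction_on with
      | empty => exact ⟨0, Set.empty_subset _⟩
      | @insert a t _ _ ih =>
        obtain ⟨n, hn⟩ := ih (fun x hx => hsub x (Set.mem_insert_of_mem _ hx))
        obtain ⟨m, hm⟩ := hsub a (Set.mem_insert _ _)
        refine ⟨max n m, ?_⟩
        rintro x (rfl | hx)
        · exact hmono (le_max_right _ _) hm
        · exact hmono (le_max_left _ _) (hn hx)
    obtain ⟨n, hn⟩ := hbound
    refine ⟨n, fun m hm => le_antisymm ?_ (hmono hm)⟩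
    intro x hx
    have h1 : x ∈ H := ⟨m, hx⟩
    rw [← hsH] at h1
    exact LieSubalgebra.lieSpan_le.mpr hn h1

end Pool.Agent.Results.MP_d0ec72_al.PositiveWitt
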